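import Pool.Agent.Helper43.Gr.Goals
import Pool.Agent.Helper49.Gm.F2

/-!
Packet R4 (MP_d3128a_ag): the triangle.
-/

set_option autoImplicit false

namespace Pool.Agent.Helper43.Gr.PkR4

open Finset
open Pool.Agent.Helper43.Gm (st mv nn SS Run Pri Reg)
open Pool.Agent.Lead.Sh (Inj rows triD mem_triD mem_rows card_rows)
open Pool.Agent.Lead.Rw (Ind')
open Helper18.Cusp (Concl)
open Pool.Agent.Helper43.Gr

lemma reg_tri (d : ℕ) : Reg 0 (d + 1) (fun _ => 0) (fun y => d + 1 - y) (triD 0 d) := by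
  refine ⟨fun e => ?_, fun y _ k _ _ => by omega⟩
  rw [mem_triD]
  simp only [zero_mul, zero_add]
  constructor
  · rintro ⟨-, h⟩; omega
  · rintro ⟨h1, -, h3⟩; omega

theorem goalR4 (hA : Pool.Agent.Helper43.Gm.GoalA) (h2 : GoalR2) (h3 : GoalR3) : GoalR4 := by
  intro M d N ν hM hν hanti hS
  set ν' : ℕ → ℕ := fun c => if c < N then ν c else 1 with hν'
  have e1 : ∀ c < N, ν' c = ν c := by
    intro c hc
    simp only [hν']
    rw [if_pos hc]
  have e2 : ∀ c, N ≤ c → ν' c = 1 := by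
    intro c hc
    simp only [hν']
    rw [if_neg (by omega)]
  have g1 : ∀ c, 1 ≤ ν' c := by
    intro c
    rcases lt_or_ge c N with h | h
    · rw [e1 c h]; exact hν c h
    · rw [e2 c h]
  have g2 : Antitone ν' := by
    intro c c' hcc
    rcases lt_or_ge c' N with h | h
    · rw [e1 c' h, e1 c (by omega)]
      exact hanti c c' hcc h
    · rw [e2 c' h]
      exact g1 c
  have g3 : ∀ N', SCond M (d + 1) N' ν' := by
    intro N' c _ hc
    have hcN : c < N := by
      by_contra hcon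
      rw [e2 c (by omega)] at hc
      omega
    rw [e1 c hcN] at hc ⊢
    refine le_trans (le_of_eq ?_) (hS c hcN hc)
    congr 1
    refine sum_congr rfl fun i hi => ?_
    rw [mem_range] at hi
    rw [e1 i (by omega)]
  have hsum : ∑ c ∈ range N, (ν' c + 1).choose 2 = ∑ c ∈ range N, (ν c + 1).choose 2 :=
    sum_congr rfl fun c hc => by rw [e1 c (mem_range.1 hc)]
  have hrows : rows ν' (range N) = rows ν (range N) := by
    ext r
    rw [mem_rows, mem_rows, mem_range]
    constructor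
    · rintro ⟨h, h'⟩
      rw [e1 _ h] at h'
      exact ⟨h, h'⟩
    · rintro ⟨h, h'⟩
      rw [← e1 _ h] at h'
      exact ⟨h, h'⟩
  constructor
  · intro hle
    obtain ⟨n, π, ε, hP, hn⟩ := h2 M (d + 1) N ν' hM (by omega) g1 g2 g3
      (by rw [hsum]; exact hle)
    rw [← hrows]
    exact hA 0 (d + 1) (fun _ => 0) (fun y => d + 1 - y) (triD 0 d)
      (fun e he => ((reg_tri d).1 e).1 he) N ν' n π ε hP hn
  · intro hle
    obtain ⟨n, π, ε, hP, hn, hs⟩ := h3 M (d + 1) N ν' hM g1 g2 g3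
      (by rw [hsum]; exact hle)
    obtain ⟨D2, k1, k2, k3⟩ := Pool.Agent.Helper43.Gm.PkF2.fin_ind hA 0 (d + 1) (fun _ => 0)
      (fun y => d + 1 - y) (triD 0 d) (reg_tri d) N ν' n π ε hP hn hs
    refine ⟨D2, k1, ?_, ?_⟩
    · rw [k2, hsum, card_rows]
    · rw [← hrows]
      exact k3

end Pool.Agent.Helper43.Gr.PkR4
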