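import Pool.Agent.Helper43.Gr.Goals

/-!
Packet R5 (MP_d3128a_ag): the window theorem with small multiplicities.
-/

set_option autoImplicit false

namespace Pool.Agent.Helper43.Gr.PkR5

open Finset
open Pool.Agent.Lead.Sh
open Helper18.Cusp (GoodFor Concl Red kap rr)
open Pool.Agent.Lead.Rw (Ind' split_mult card_simple rows_range_eq sum_range_eq sum_simple
  ind'_ext ind'_empty)
open Pool.Agent.Helper43.Gr

theorem goalR5 (h4 : GoalR4) : GoalR5 := by
  intro s m d M hm hs hM hSC h
  refine Pool.Agent.Lead.Rw.concl s m d ?_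
  obtain ⟨N, f, hNf, h1, h0, h2⟩ := split_mult hm hs
  have hsumZ : ∑ i : Fin s, (Nat.choose (m (i : ℕ) + 1) 2 : ℤ) =
      ((∑ i ∈ range s, Nat.choose (m i + 1) 2 : ℕ) : ℤ) := by
    rw [← Fin.sum_univ_eq_sum_range (fun i => Nat.choose (m i + 1) 2) s]; push_cast; rfl
  rw [card_simple hNf h1 h0 h2, hsumZ, sum_range_eq hNf h0] at h
  rw [rows_range_eq hNf h0, sum_range_eq hNf h0]
  have hSN : ∑ i ∈ range (N + f), Nat.choose (m i + 1) 2 =
      ∑ i ∈ range N, Nat.choose (m i + 1) 2 + f := by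
    rw [range_eq_Ico, range_eq_Ico]
    exact sum_simple (Nat.zero_le _) h1
  set S := ∑ i ∈ range (N + f), Nat.choose (m i + 1) 2 with hS
  set T := Nat.choose (d + 2) 2 with hT
  have hpos : ∀ c < N + f, 1 ≤ m c := by
    intro c hc
    rcases Nat.lt_or_ge c N with hkN | hkN
    · have := h2 c hkN
      omega
    · rw [h1 c hkN hc]
  have hSCN : ∀ N', SCond M (d + 1) N' m := fun N' c _ hc => hSC c hc
  -- the case of independence of the points of multiplicity at least two
  have key : Ind' (triD 0 d) (rows m (Finset.Ico 0 N)) →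
      (S ≤ T ∧ Ind (triD 0 d) (rows m (range (N + f)))) ∨
        (T ≤ S ∧ Inj (triD 0 d) (rows m (range (N + f)))) := by
    intro hi
    have hx := ind'_ext (Nat.zero_le N) h1 hi
    have hc : (rows m (Finset.Ico 0 (N + f))).card = S := by
      rw [card_rows, hS, range_eq_Ico]
    rw [hc, card_triD, ← range_eq_Ico] at hx
    rcases le_or_gt S T with hST | hST
    · exact Or.inl ⟨hST, (hx.1 hST).ind⟩
    · exact Or.inr ⟨hST.le, hx.2 hST.le⟩
  rcases h with h | h
  · apply key
    rw [← range_eq_Ico]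
    refine (h4 M d N m hM (fun c hc => hpos c (by omega)) (fun c c' hcc _ => hm hcc)
      (hSCN N)).2 ?_
    have hz : ((M * (2 * M - 1) : ℕ) : ℤ) = 2 * (M : ℤ) ^ 2 - M := by
      rw [Nat.cast_mul, Nat.cast_sub (by omega)]
      push_cast
      ring
    have h7 : ((∑ k ∈ range N, Nat.choose (m k + 1) 2 + M * (2 * M - 1) : ℕ) : ℤ) ≤
        (T : ℤ) := by
      rw [hSN] at h
      rw [Nat.cast_add, hz]
      rw [Nat.cast_add] at h
      linarith
    exact_mod_cast h7
  · right
    have hlt : T ≤ S := by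
      have h5 : (M : ℤ) ≤ 5 * (M : ℤ) ^ 2 := by
        have : (1 : ℤ) ≤ M := by exact_mod_cast hM
        nlinarith
      have h6 : (T : ℤ) ≤ S := by linarith
      exact_mod_cast h6
    refine ⟨hlt, ?_⟩
    refine (h4 M d (N + f) m hM hpos (fun c c' hcc _ => hm hcc) (hSCN (N + f))).1 ?_
    rw [← hS, ← hT]
    zify
    linarith

end Pool.Agent.Helper43.Gr.PkR5
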